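import Mathlib

open MeasureTheory Real

namespace Pool.Agent.Results.MP_0f2923_nt.NullForm

def A : Finset (Fin 28) := {11, 16, 21, 22, 23, 24, 25}

def u : Fin 28 → Fin 28 := ![11, 11, 11, 11, 11, 16, 16, 16, 16, 11, 21, 21, 21, 21, 11, 22, 23, 24, 25, 16, 22, 23, 24, 25, 21, 22, 23, 24]

def v : Fin 28 → Fin 28 := ![25, 24, 23, 22, 21, 25, 24, 23, 22, 16, 25, 24, 23, 22, 11, 21, 21, 21, 21, 11, 16, 16, 16, 16, 11, 11, 11, 11]

lemma uv : ∀ e : Fin 28, u e ∈ A ∧ v e ∈ A ∧ (u e : ℕ) + 14 = e + v e := by decide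

lemma miss : ∀ a ∈ A, ∀ a' ∈ A, ∀ t ∈ ({-1, 0, 1, 2} : Finset ℤ),
    (2 * ((a : ℕ) : ℤ) - (a' : ℕ) + t) % 28 ≠ 14 := by decide

def K : Set ℝ := {x | ∃ a : ℕ → Fin 28, (∀ i, a i ∈ A) ∧ x = ofDigits a}

def S : Set ℝ := {x | ∃ z : ℤ, ∃ p ∈ K, ∃ q ∈ K, x = z + (2 * p - q)}

lemma shift (a : ℕ → Fin 28) :
    28 * ofDigits a = ((a 0 : ℕ) : ℝ) + ofDigits (fun i => a (i + 1)) := by
  rw [ofDigits_eq_sum_add_ofDigits a 1]
  simp only [Finset.range_one, Finset.sum_singleton, ofDigitsTerm]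
  push_cast; ring

lemma self_sim : S ∩ Set.Ico 0 1 ⊆ ⋃ d ∈ (Finset.range 28).erase 14,
    (fun x => 28 * x) ⁻¹' ((fun x => x + -(d : ℝ)) ⁻¹' (S ∩ Set.Ico 0 1)) := by
  rintro x ⟨⟨z, _, ⟨a, ha, rfl⟩, _, ⟨a', ha', rfl⟩, hx⟩, h0, h1⟩
  set p := ofDigits (fun i => a (i + 1)) with hp
  set q := ofDigits (fun i => a' (i + 1)) with hq
  have e : 28 * x = ((28 * z + (2 * ((a 0 : ℕ) : ℤ) - (a' 0 : ℕ)) : ℤ) : ℝ) + (2 * p - q) := by
    have h2 := shift a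
    have h3 := shift a'
    push_cast; rw [hx]; linarith
  have f0 : 0 ≤ ⌊28 * x⌋ := Int.floor_nonneg.2 (by linarith)
  have f1 : ⌊28 * x⌋ < 28 := Int.floor_lt.2 (by push_cast; linarith)
  have f2 : ⌊28 * x⌋ = 28 * z + (2 * ((a 0 : ℕ) : ℤ) - (a' 0 : ℕ)) + ⌊2 * p - q⌋ := by
    rw [e, Int.floor_intCast_add]
  have g0 : -1 ≤ ⌊2 * p - q⌋ := Int.le_floor.2 (by
    have := ofDigits_nonneg (fun i => a (i + 1))
    have := ofDigits_le_one (fun i => a' (i + 1))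
    push_cast; linarith)
  have g1 : ⌊2 * p - q⌋ < 3 := Int.floor_lt.2 (by
    have := ofDigits_le_one (fun i => a (i + 1))
    have := ofDigits_nonneg (fun i => a' (i + 1))
    push_cast; linarith)
  have m := miss _ (ha 0) _ (ha' 0) ⌊2 * p - q⌋ (by
    simp only [Finset.mem_insert, Finset.mem_singleton]; omega)
  obtain ⟨d, hd⟩ := Int.eq_ofNat_of_zero_le f0
  have hd' : (d : ℝ) = (⌊28 * x⌋ : ℤ) := by rw [hd]; simp
  refine Set.mem_iUnion₂.2 ⟨d, Finset.mem_erase.2 ⟨by omega, Finset.mem_range.2 (by omega)⟩,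
    ⟨28 * z + (2 * ((a 0 : ℕ) : ℤ) - (a' 0 : ℕ)) - d, p, ⟨_, fun i => ha _, rfl⟩, q,
      ⟨_, fun i => ha' _, rfl⟩, ?_⟩, ?_, ?_⟩
  · show 28 * x + -(d : ℝ) = _
    rw [e]; push_cast; ring
  · show 0 ≤ 28 * x + -(d : ℝ)
    rw [hd']; linarith [Int.floor_le (28 * x)]
  · show 28 * x + -(d : ℝ) < 1
    rw [hd']; linarith [Int.lt_floor_add_one (28 * x)]

lemma null01 : volume (S ∩ Set.Ico (0 : ℝ) 1) = 0 := by
  set m := volume (S ∩ Set.Ico (0 : ℝ) 1) with hm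
  have hfin : m ≠ ⊤ := by
    refine ne_top_of_le_ne_top ?_ (measure_mono Set.inter_subset_right)
    simp
  have h1 := (measure_mono self_sim).trans (measure_biUnion_finset_le (μ := volume) _ _)
  simp only [Real.volume_preimage_mul_left (by norm_num : (28 : ℝ) ≠ 0), measure_preimage_add_right,
    Finset.sum_const, nsmul_eq_mul, ← hm] at h1
  rw [show ((Finset.range 28).erase 14).card = 27 by decide] at h1
  have h2 := ENNReal.toReal_mono (ENNReal.mul_ne_top (by simp)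
    (ENNReal.mul_ne_top (by simp) hfin)) h1
  rw [ENNReal.toReal_mul, ENNReal.toReal_mul, ENNReal.toReal_ofReal (abs_nonneg _),
    abs_of_pos (by norm_num)] at h2
  simp only [Nat.cast_ofNat, ENNReal.toReal_ofNat] at h2
  have h3 : m.toReal = 0 := le_antisymm (by linarith) ENNReal.toReal_nonneg
  exact ((ENNReal.toReal_eq_zero_iff _).1 h3).resolve_right hfin

lemma nullS : volume S = 0 := by
  have : S ⊆ ⋃ n : ℤ, (fun x => x + -(n : ℝ)) ⁻¹' (S ∩ Set.Ico 0 1) := by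
    rintro x ⟨z, p, hp, q, hq, hx⟩
    refine Set.mem_iUnion.2 ⟨⌊x⌋, ⟨z - ⌊x⌋, p, hp, q, hq, ?_⟩, ?_, ?_⟩
    · show x + -_ = _
      push_cast; linarith
    · show 0 ≤ x + -_
      linarith [Int.floor_le x]
    · show x + -_ < 1
      linarith [Int.lt_floor_add_one x]
  refine measure_mono_null this (measure_iUnion_null fun n => ?_)
  rw [measure_preimage_add_right, null01]

lemma diff (x : ℝ) : ∃ z : ℤ, ∃ p ∈ K, ∃ q ∈ K, x = z + (p - q) := by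
  set ρ := ofDigits (fun _ => (14 : Fin 28)) with hρ
  set e := digits (Int.fract (x + ρ)) 28 with he
  have h1 : ofDigits e = Int.fract (x + ρ) :=
    ofDigits_digits (by norm_num) ⟨Int.fract_nonneg _, Int.fract_lt_one _⟩
  have h2 : ofDigits (fun i => u (e i)) + ρ = ofDigits e + ofDigits (fun i => v (e i)) := by
    simp only [hρ, ofDigits]
    rw [← summable_ofDigitsTerm.tsum_add summable_ofDigitsTerm,
      ← summable_ofDigitsTerm.tsum_add summable_ofDigitsTerm]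
    refine tsum_congr fun i => ?_
    have h3 : ((u (e i) : ℕ) : ℝ) + 14 = (e i : ℕ) + (v (e i) : ℕ) := by
      exact_mod_cast (uv (e i)).2.2
    simp only [ofDigitsTerm]
    rw [← add_mul, ← add_mul, ← h3]
    rfl
  refine ⟨⌊x + ρ⌋, _, ⟨_, fun i => (uv (e i)).1, rfl⟩, _, ⟨_, fun i => (uv (e i)).2.1, rfl⟩, ?_⟩
  have := Int.floor_add_fract (x + ρ)
  linarith

theorem result : ∃ E : Set ℝ, E ⊆ Set.Ioi 0 ∧
    {x | ∃ e₁ ∈ E, ∃ e₂ ∈ E, x = e₁ - e₂} = Set.univ ∧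
    volume {x | ∃ e₁ ∈ E, ∃ e₂ ∈ E, x = 2 * e₁ - e₂} = 0 := by
  refine ⟨{y | ∃ p ∈ K, ∃ m : ℕ, y = p + (m + 1)}, ?_, ?_, measure_mono_null ?_ nullS⟩
  · rintro _ ⟨_, ⟨a, -, rfl⟩, m, rfl⟩
    have := ofDigits_nonneg a
    rw [Set.mem_Ioi]
    positivity
  · refine Set.eq_univ_of_forall fun x => ?_
    obtain ⟨z, p, hp, q, hq, hx⟩ := diff x
    refine ⟨_, ⟨p, hp, z.toNat, rfl⟩, _, ⟨q, hq, (-z).toNat, rfl⟩, ?_⟩
    have h : ((z.toNat : ℤ) : ℝ) - (((-z).toNat : ℤ) : ℝ) = z := by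
      exact_mod_cast Int.toNat_sub_toNat_neg z
    push_cast at h
    linarith
  · rintro _ ⟨_, ⟨p, hp, m, rfl⟩, _, ⟨q, hq, n, rfl⟩, rfl⟩
    exact ⟨2 * (m + 1) - (n + 1), p, hp, q, hq, by push_cast; ring⟩

end Pool.Agent.Results.MP_0f2923_nt.NullForm
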